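import Pool.Agent.Y262.EG.Stm

/-!
# Project EG: the sets where the curvature is small for a long time
-/

set_option autoImplicit false

open Set Filter Topology MeasureTheory
open Pool.Agent.Y262.EG

noncomputable section

namespace Pool.Agent.Y371.EG

/-- the points whose orbit stays in the region of small curvature during `[0, l]` -/
def El {P : Type} (Fl : ℝ → P → P) (k : P → ℝ) (κ l : ℝ) : Set P :=
  {x | ∀ t ∈ Icc (0 : ℝ) l, k (Fl t x) < κ}

theorem El_meas {P : Type} [MetricSpace P] [CompactSpace P] [MeasurableSpace P] [BorelSpace P]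
    (Fl : ℝ → P → P) (k : P → ℝ) (κ l : ℝ) (hFl : Continuous fun a : ℝ × P => Fl a.1 a.2)
    (hk : Continuous k) : MeasurableSet (El Fl k κ l) := by
  have h1 : IsCompact ((Icc (0 : ℝ) l ×ˢ (univ : Set P)) ∩ {a : ℝ × P | κ ≤ k (Fl a.1 a.2)}) :=
    (isCompact_Icc.prod isCompact_univ).inter_right
      (isClosed_le continuous_const (hk.comp hFl))
  have h2 := (h1.image continuous_snd).isClosed
  have h3 : El Fl k κ l = (Prod.snd ''
      ((Icc (0 : ℝ) l ×ˢ (univ : Set P)) ∩ {a : ℝ × P | κ ≤ k (Fl a.1 a.2)}))ᶜ := by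
    ext x
    simp only [El, Set.mem_ofPred_eq, Set.mem_compl_iff, Set.mem_image, Set.mem_inter_iff,
      Set.mem_prod, Set.mem_univ, and_true, Prod.exists, exists_eq_right]
    push Not
    rfl
  rw [h3]
  exact h2.measurableSet.compl

theorem floor_bounds (J : ℕ) (hJ : 2 ≤ J) : ∃ n : ℕ, 1 ≤ n ∧ (n : ℝ) ≤ (2 : ℝ) ^ ((J : ℝ) / 4) ∧
    (2 : ℝ) ^ ((J : ℝ) / 4) ≤ n + 1 ∧ (2 : ℝ) ^ (3 * (J : ℝ) / 4) ≤ (2 : ℝ) ^ J / n ∧
    2 ≤ (2 : ℝ) ^ J / n := by
  have h0 : (1 : ℝ) ≤ (2 : ℝ) ^ ((J : ℝ) / 4) := Real.one_le_rpow (by norm_num) (by positivity)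
  have hn1 : 1 ≤ ⌊(2 : ℝ) ^ ((J : ℝ) / 4)⌋₊ := Nat.one_le_floor_iff _ |>.mpr h0
  have hn2 : (⌊(2 : ℝ) ^ ((J : ℝ) / 4)⌋₊ : ℝ) ≤ (2 : ℝ) ^ ((J : ℝ) / 4) :=
    Nat.floor_le (by positivity)
  have hn3 : (2 : ℝ) ^ ((J : ℝ) / 4) ≤ ⌊(2 : ℝ) ^ ((J : ℝ) / 4)⌋₊ + 1 :=
    (Nat.lt_floor_add_one _).le
  have hpos : (0 : ℝ) < (⌊(2 : ℝ) ^ ((J : ℝ) / 4)⌋₊ : ℝ) := by exact_mod_cast hn1
  have h4 : (2 : ℝ) ^ (3 * (J : ℝ) / 4) ≤ (2 : ℝ) ^ J / ⌊(2 : ℝ) ^ ((J : ℝ) / 4)⌋₊ := by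
    rw [le_div_iff₀ hpos]
    calc (2 : ℝ) ^ (3 * (J : ℝ) / 4) * ⌊(2 : ℝ) ^ ((J : ℝ) / 4)⌋₊
        ≤ (2 : ℝ) ^ (3 * (J : ℝ) / 4) * (2 : ℝ) ^ ((J : ℝ) / 4) :=
          mul_le_mul_of_nonneg_left hn2 (by positivity)
      _ = (2 : ℝ) ^ J := by
          rw [← Real.rpow_add (by norm_num), ← Real.rpow_natCast]
          congr 1
          ring
  refine ⟨_, hn1, hn2, hn3, h4, le_trans ?_ h4⟩
  have hJ' : (2 : ℝ) ≤ J := by exact_mod_cast hJ
  calc (2 : ℝ) = (2 : ℝ) ^ (1 : ℝ) := (Real.rpow_one 2).symm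
    _ ≤ (2 : ℝ) ^ (3 * (J : ℝ) / 4) :=
        Real.rpow_le_rpow_of_exponent_le (by norm_num) (by linarith)

theorem bad : StJac1 → StJac2 → StBad := by
  intro hJ1 hJ2 P _ _ _ _ m Fl Ac dX dH dV k c c1 s s1 pk
  have := pk.fin
  obtain ⟨κ, C0, hκ, hcl⟩ := pk.cl
  have hkc : Continuous k := pk.ct k pk.kA
  obtain ⟨Λ0, hΛ0⟩ := isCompact_univ.exists_bound_of_continuousOn
    ((pk.dvX.ct k pk.kA).continuousOn (s := univ))
  obtain ⟨Λ, hΛd⟩ : ∃ Λ : ℝ, Λ = max 1 Λ0 := ⟨_, rfl⟩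
  have hΛ1 : 1 ≤ Λ := by rw [hΛd]; exact le_max_left _ _
  have hΛ : ∀ x, ‖dX k x‖ ≤ Λ := fun x =>
    (hΛ0 x (mem_univ x)).trans (by rw [hΛd]; exact le_max_right _ _)
  -- the curvature along an orbit is Lipschitz
  have hlip : ∀ (x : P) (a t : ℝ), a ≤ t → k (Fl a x) - Λ * (t - a) ≤ k (Fl t x) := by
    intro x a t hat
    have h1 : ∀ r ∈ (univ : Set ℝ), HasDerivWithinAt (fun τ => k (Fl τ x)) (dX k (Fl r x)) univ r :=
      fun r _ => (pk.alg k pk.kA x r).hasDerivWithinAt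
    have h2 := convex_univ.norm_image_sub_le_of_norm_hasDerivWithin_le h1
      (fun r _ => hΛ (Fl r x)) (mem_univ a) (mem_univ t)
    rw [Real.norm_eq_abs, Real.norm_eq_abs, abs_of_nonneg (sub_nonneg.mpr hat)] at h2
    have h3 := (abs_le.mp h2).1
    linarith
  obtain ⟨τ, hτd⟩ : ∃ τ : ℝ, τ = min 1 (κ / (2 * Λ)) := ⟨_, rfl⟩
  have hΛ0' : 0 < Λ := by linarith
  have hτ0 : 0 < τ := by rw [hτd]; exact lt_min one_pos (by positivity)
  have hτ1 : τ ≤ 1 := by rw [hτd]; exact min_le_left _ _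
  have hτ2 : Λ * τ ≤ κ / 2 := by
    have h1 : τ ≤ κ / (2 * Λ) := by rw [hτd]; exact min_le_right _ _
    calc Λ * τ ≤ Λ * (κ / (2 * Λ)) := mul_le_mul_of_nonneg_left h1 hΛ0'.le
      _ = κ / 2 := by field_simp
  obtain ⟨q, hq⟩ : ∃ q : ℝ, q = 1 + κ / 2 * τ ^ 2 / 2 := ⟨_, rfl⟩
  have hq1 : 1 < q := by
    rw [hq]
    have : 0 < κ / 2 * τ ^ 2 / 2 := by positivity
    linarith
  have hq0 : 0 < q := by linarith
  obtain ⟨ρ, hρ⟩ : ∃ ρ : ℝ, ρ = q⁻¹ := ⟨_, rfl⟩
  have hρ0 : 0 < ρ := by rw [hρ]; positivity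
  have hρ1 : ρ < 1 := by rw [hρ]; exact inv_lt_one_of_one_lt₀ hq1
  obtain ⟨C', hC'⟩ : ∃ C' : ℝ, C' = max C0 0 := ⟨_, rfl⟩
  have hC'0 : 0 ≤ C' := by rw [hC']; exact le_max_right _ _
  have hC'1 : C0 ≤ C' := by rw [hC']; exact le_max_left _ _
  obtain ⟨μ, hμ⟩ : ∃ μ : ℝ, μ = (m univ).toReal := ⟨_, rfl⟩
  have hμ0 : 0 ≤ μ := by rw [hμ]; exact ENNReal.toReal_nonneg
  have hmu : m univ = ENNReal.ofReal μ := by
    rw [hμ, ENNReal.ofReal_toReal (measure_ne_top m univ)]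
  -- the number of pieces
  have hfl := fun (J : ℕ) (hJ : 2 ≤ J) => floor_bounds J hJ
  choose! n hn1 hn2 hn3 hn4 hn5 using hfl
  obtain ⟨C, hC⟩ : ∃ C : ℝ, C = 2 * C' + 2 * μ + ρ⁻¹ := ⟨_, rfl⟩
  have hρi : 0 < ρ⁻¹ := by positivity
  refine ⟨C, ρ, fun J => if J < 2 then univ else
    ⋃ i ∈ Finset.range (n J), (Fl (i * ((2 : ℝ) ^ J / n J))) ⁻¹'
      El Fl k κ ((2 : ℝ) ^ J / n J - τ), hρ0, hρ1, ?_, ?_, ?_⟩
  · intro J
    by_cases hJ : J < 2
    · simp [hJ]
    · simp only [if_neg hJ]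
      refine Finset.measurableSet_biUnion _ fun i _ => ?_
      exact (pk.flm _).measurable (El_meas Fl k κ _ pk.flc hkc)
  · intro J
    by_cases hJ : J < 2
    · simp only [if_pos hJ]
      rw [hmu]
      refine ENNReal.ofReal_le_ofReal ?_
      have h1 : (1 / 2 : ℝ) ≤ (2 : ℝ) ^ (-(J : ℝ) / 8) := by
        have h2 : (1 / 2 : ℝ) = (2 : ℝ) ^ (-1 : ℝ) := by
          rw [Real.rpow_neg_one]; norm_num
        rw [h2]
        refine Real.rpow_le_rpow_of_exponent_le (by norm_num) ?_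
        have h3 : (J : ℝ) < 2 := by exact_mod_cast hJ
        linarith
      have h4 : μ ≤ C * (1 / 2) := by rw [hC]; linarith
      have h5 : 0 ≤ C := by rw [hC]; positivity
      exact h4.trans (mul_le_mul_of_nonneg_left h1 h5)
    · simp only [if_neg hJ]
      push Not at hJ
      obtain ⟨l, hl⟩ : ∃ l : ℝ, l = (2 : ℝ) ^ J / n J := ⟨_, rfl⟩
      have hl2 : 2 ≤ l := by rw [hl]; exact hn5 J hJ
      have hl4 : (2 : ℝ) ^ (3 * (J : ℝ) / 4) ≤ l := by rw [hl]; exact hn4 J hJ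
      rw [← hl]
      have hlτ : 1 ≤ l - τ := by linarith
      have hlτ2 : l / 2 ≤ l - τ := by linarith
      have h1 : m (⋃ i ∈ Finset.range (n J), (Fl (i * l)) ⁻¹' El Fl k κ (l - τ)) ≤
          ∑ i ∈ Finset.range (n J), m ((Fl (i * l)) ⁻¹' El Fl k κ (l - τ)) :=
        measure_biUnion_finset_le _ _
      have h2 : ∀ i ∈ Finset.range (n J), m ((Fl (i * l)) ⁻¹' El Fl k κ (l - τ)) ≤
          ENNReal.ofReal (C' / Real.sqrt (l / 2)) := by
        intro i _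
        rw [(pk.flm _).measure_preimage (El_meas Fl k κ _ pk.flc hkc).nullMeasurableSet]
        refine (hcl (l - τ) hlτ).trans (ENNReal.ofReal_le_ofReal ?_)
        have h3 : 0 < Real.sqrt (l / 2) := Real.sqrt_pos.mpr (by linarith)
        calc C0 / Real.sqrt (l - τ) ≤ C' / Real.sqrt (l - τ) :=
              div_le_div_of_nonneg_right hC'1 (Real.sqrt_nonneg _)
          _ ≤ C' / Real.sqrt (l / 2) :=
              div_le_div_of_nonneg_left hC'0 h3 (Real.sqrt_le_sqrt hlτ2)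
      refine h1.trans ((Finset.sum_le_sum h2).trans ?_)
      rw [Finset.sum_const, Finset.card_range, nsmul_eq_mul, ← ENNReal.ofReal_natCast,
        ← ENNReal.ofReal_mul (Nat.cast_nonneg _)]
      refine ENNReal.ofReal_le_ofReal ?_
      have h3 : (2 : ℝ) ^ (3 * (J : ℝ) / 8) / 2 ≤ Real.sqrt (l / 2) := by
        refine Real.le_sqrt_of_sq_le ?_
        have h4 : ((2 : ℝ) ^ (3 * (J : ℝ) / 8)) ^ 2 = (2 : ℝ) ^ (3 * (J : ℝ) / 4) := by
          rw [← Real.rpow_natCast, ← Real.rpow_mul (by norm_num)]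
          congr 1
          push_cast
          ring
        rw [div_pow, h4]
        linarith
      have hp : 0 < (2 : ℝ) ^ (3 * (J : ℝ) / 8) := by positivity
      have h5 : C' / Real.sqrt (l / 2) ≤ C' / ((2 : ℝ) ^ (3 * (J : ℝ) / 8) / 2) :=
        div_le_div_of_nonneg_left hC'0 (by positivity) h3
      have h6 : (n J : ℝ) * (C' / Real.sqrt (l / 2)) ≤
          (2 : ℝ) ^ ((J : ℝ) / 4) * (C' / ((2 : ℝ) ^ (3 * (J : ℝ) / 8) / 2)) :=
        mul_le_mul (hn2 J hJ) h5 (by positivity) (by positivity)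
      refine h6.trans ?_
      have h7 : (2 : ℝ) ^ ((J : ℝ) / 4) * (C' / ((2 : ℝ) ^ (3 * (J : ℝ) / 8) / 2)) =
          2 * C' * (2 : ℝ) ^ (-(J : ℝ) / 8) := by
        have h8 : (2 : ℝ) ^ ((J : ℝ) / 4) = (2 : ℝ) ^ (-(J : ℝ) / 8) *
            (2 : ℝ) ^ (3 * (J : ℝ) / 8) := by
          rw [← Real.rpow_add (by norm_num)]
          congr 1
          ring
        rw [h8]
        field_simp
      rw [h7]
      refine mul_le_mul_of_nonneg_right ?_ (by positivity)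
      rw [hC]
      linarith
  · intro J x hx T hT
    by_cases hJ : J < 2
    · simp [hJ] at hx
    · simp only [if_neg hJ] at hx
      push Not at hJ
      obtain ⟨l, hl⟩ : ∃ l : ℝ, l = (2 : ℝ) ^ J / n J := ⟨_, rfl⟩
      have hl2 : 2 ≤ l := by rw [hl]; exact hn5 J hJ
      have hn0 : (0 : ℝ) < n J := by exact_mod_cast hn1 J hJ
      have hnl : (n J : ℝ) * l = (2 : ℝ) ^ J := by
        rw [hl]
        field_simp
      rw [← hl] at hx
      simp only [mem_iUnion, not_exists, Finset.mem_range] at hx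
      have hT0 : 0 < T := lt_of_lt_of_le (by positivity) hT
      obtain ⟨-, -, -, hA⟩ := hJ1 _ _ _ _ _ (pk.jac x) (fun t => pk.k0 _)
      obtain ⟨-, hA1, -, hA2, -⟩ := hA T (uu c s T x) (fun t => yy c s T t x)
        (fun t => c1 t x + uu c s T x * s1 t x) hT0 rfl (fun t => rfl) (fun t => rfl)
      obtain ⟨-, hB, -⟩ := hJ2 _ _ _ _ _ (pk.jac x) (fun t => pk.k0 _) T (uu c s T x)
        (fun t => yy c s T t x) (fun t => c1 t x + uu c s T x * s1 t x) hT0 rfl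
        (fun t => rfl) (fun t => rfl)
      -- one step
      have hstep : ∀ i : ℕ, i < n J →
          yy c s T ((i + 1 : ℕ) * l) x * q ≤ yy c s T (i * l) x := by
        intro i hi
        have hx1 := hx i hi
        rw [mem_preimage] at hx1
        have hx2 : ∃ t ∈ Icc (0 : ℝ) (l - τ), κ ≤ k (Fl t (Fl (i * l) x)) := by
          by_contra hcon
          push Not at hcon
          exact hx1 hcon
        obtain ⟨t, ht, hkt⟩ := hx2
        rw [← pk.fla] at hkt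
        have hi1 : ((i : ℝ) + 1) * l ≤ T := by
          have h1 : ((i : ℝ) + 1) ≤ n J := by exact_mod_cast hi
          calc ((i : ℝ) + 1) * l ≤ n J * l := mul_le_mul_of_nonneg_right h1 (by linarith)
            _ = (2 : ℝ) ^ J := hnl
            _ ≤ T := hT
        have hil : 0 ≤ (i : ℝ) * l := by positivity
        have e1 : (i : ℝ) * l + l = ((i : ℝ) + 1) * l := by ring
        have h3 : ∀ r ∈ Icc (t + i * l) (t + i * l + τ), κ / 2 ≤ k (Fl r x) := by
          intro r hr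
          have h4 := hlip x (t + i * l) r hr.1
          have h5 : Λ * (r - (t + i * l)) ≤ Λ * τ :=
            mul_le_mul_of_nonneg_left (by linarith [hr.2]) hΛ0'.le
          linarith
        have h6 := hB (t + i * l) τ (κ / 2) (by linarith [ht.1]) hτ0.le
          (by linarith [ht.2]) (by positivity) h3
        rw [← hq] at h6
        have h7 : yy c s T (t + i * l) x ≤ yy c s T (i * l) x :=
          hA2 ⟨hil, by linarith⟩ ⟨by linarith [ht.1], by linarith [ht.2]⟩ (by linarith [ht.1])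
        have h8 : yy c s T (((i : ℝ) + 1) * l) x ≤ yy c s T (t + i * l + τ) x :=
          hA2 ⟨by linarith [ht.1], by linarith [ht.2]⟩ ⟨by linarith, hi1⟩ (by linarith [ht.2])
        have h9 : ((i + 1 : ℕ) : ℝ) = (i : ℝ) + 1 := by push_cast; ring
        rw [h9]
        calc yy c s T (((i : ℝ) + 1) * l) x * q ≤ yy c s T (t + i * l + τ) x * q :=
              mul_le_mul_of_nonneg_right h8 hq0.le
          _ ≤ yy c s T (t + i * l) x := h6
          _ ≤ yy c s T (i * l) x := h7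
      have hind : ∀ i : ℕ, i ≤ n J → yy c s T (i * l) x * q ^ i ≤ 1 := by
        intro i
        induction i with
        | zero =>
          intro _
          have h1 := (hA1 0 ⟨le_rfl, hT0.le⟩).2.1
          simpa using h1
        | succ i ih =>
          intro hi
          have h1 := hstep i (by omega)
          have h2 := ih (by omega)
          calc yy c s T ((i + 1 : ℕ) * l) x * q ^ (i + 1) =
                (yy c s T ((i + 1 : ℕ) * l) x * q) * q ^ i := by rw [pow_succ]; ring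
            _ ≤ yy c s T (i * l) x * q ^ i := mul_le_mul_of_nonneg_right h1 (by positivity)
            _ ≤ 1 := h2
      have h1 := hind (n J) le_rfl
      rw [hnl] at h1
      have h2 : yy c s T ((2 : ℝ) ^ J) x ≤ ρ ^ (n J) := by
        rw [hρ, inv_pow]
        rw [← one_div, le_div_iff₀ (by positivity)]
        exact h1
      have h3 : ρ ^ (n J) ≤ ρ⁻¹ * ρ ^ ((2 : ℝ) ^ ((J : ℝ) / 4)) := by
        have h4 : ρ⁻¹ * ρ ^ ((2 : ℝ) ^ ((J : ℝ) / 4)) = ρ ^ ((2 : ℝ) ^ ((J : ℝ) / 4) - 1) := by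
          rw [Real.rpow_sub hρ0, Real.rpow_one]
          field_simp
        rw [h4, ← Real.rpow_natCast]
        exact Real.rpow_le_rpow_of_exponent_ge hρ0 hρ1.le (by linarith [hn3 J hJ])
      refine (h2.trans h3).trans (mul_le_mul_of_nonneg_right ?_ (by positivity))
      rw [hC]
      linarith

end Pool.Agent.Y371.EG
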